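import Mathlib.ModelTheory.Semantics
import Mathlib.Combinatorics.SimpleGraph.Walk.Basic

/-!
# Addition-invariant first-order logic on finite coloured graphs: definitions

The conventions are those of the problem file MP_abe753_lc.
-/

namespace Pool.Agent.AddInv

open FirstOrder

/-- The relation symbols of the vocabulary of graphs with `m` colour predicates, expanded by a
ternary relation symbol for addition: a binary symbol for adjacency, `m` unary colour symbols, and
the ternary symbol for addition. -/
inductive RelSym (m : ℕ) : ℕ → Type
  | adj : RelSym m 2
  | colour (i : Fin m) : RelSym m 1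
  | plus : RelSym m 3

/-- The relational vocabulary with the symbols `RelSym m` and no function symbols. -/
def voc (m : ℕ) : Language.{0, 0} := ⟨fun _ => Empty, RelSym m⟩

/-- A graph with vertex set `V` and `m` colour predicates. -/
structure ColGraph (m : ℕ) (V : Type) where
  /-- the underlying undirected loopless graph -/
  graph : SimpleGraph V
  /-- the colour predicates -/
  colour : Fin m → V → Prop

/-- A numbering of the vertices of a finite graph: a bijection to `{0, …, n-1}`; the number of a
vertex, as used by addition, is `num f v ∈ {1, …, n}`. -/
abbrev Numbering (V : Type) [Fintype V] : Type := V ≃ Fin (Fintype.card V)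

/-- The number in `{1, …, n}` which the numbering `f` gives to the vertex `v`. -/
def num {V : Type} [Fintype V] (f : Numbering V) (v : V) : ℕ := (f v : ℕ) + 1

/-- The expansion of the coloured graph `G` by the addition of the numbering `f`, as a first-order
structure: `plus u v w` holds iff `f(u) + f(v) = f(w)` (with numbers in `{1, …, n}`). -/
@[reducible] def ColGraph.expand {m : ℕ} {V : Type} [Fintype V] (G : ColGraph m V)
    (f : Numbering V) : (voc m).Structure V where
  funMap := fun e _ => Empty.elim e
  RelMap := fun {_} R => match R with
    | .adj => fun x => G.graph.Adj (x 0) (x 1)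
    | .colour i => fun x => G.colour i (x 0)
    | .plus => fun x => num f (x 0) + num f (x 1) = num f (x 2)

/-- `Sat G f φ a`: the formula `φ` holds of the tuple `a` in the graph `G` expanded by the addition
of the numbering `f`. -/
def Sat {m k : ℕ} {V : Type} [Fintype V] (G : ColGraph m V) (f : Numbering V)
    (φ : (voc m).Formula (Fin k)) (a : Fin k → V) : Prop :=
  @Language.Formula.Realize (voc m) V (G.expand f) (Fin k) φ a

/-- `φ` is addition-invariant: on every finite coloured graph and every tuple its truth value does
not depend on the numbering. -/
def AddInvariant {m k : ℕ} (φ : (voc m).Formula (Fin k)) : Prop :=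
  ∀ (V : Type) [Fintype V] (G : ColGraph m V) (f₁ f₂ : Numbering V) (a : Fin k → V),
    Sat G f₁ φ a ↔ Sat G f₂ φ a

/-- The `k`-ary query on coloured graphs defined by an (addition-invariant) formula `φ`: the tuple
`a` belongs to it iff `φ` holds of `a` for (every, equivalently some) numbering. -/
def query {m k : ℕ} (φ : (voc m).Formula (Fin k)) {V : Type} [Fintype V] (G : ColGraph m V) :
    Set (Fin k → V) :=
  {a | ∀ f : Numbering V, Sat G f φ a}

/-- The set of vertices at distance at most `r` from some entry of the tuple `a`. -/
def ball {m k : ℕ} {V : Type} (G : ColGraph m V) (r : ℕ) (a : Fin k → V) : Set V :=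
  {v | ∃ (i : Fin k) (p : G.graph.Walk (a i) v), p.length ≤ r}

/-- The induced coloured subgraphs on the `r`-balls of `a` and of `b` are isomorphic via a
map that sends `a` to `b`. -/
def NbhdIso {m k : ℕ} {V : Type} (G : ColGraph m V) (r : ℕ) (a b : Fin k → V) : Prop :=
  ∃ e : ball G r a ≃ ball G r b,
    (∀ x y : ball G r a, G.graph.Adj (x : V) (y : V) ↔ G.graph.Adj (e x : V) (e y : V)) ∧
    (∀ (c : Fin m) (x : ball G r a), G.colour c (x : V) ↔ G.colour c (e x : V)) ∧
    (∀ (i : Fin k) (h : a i ∈ ball G r a), (e ⟨a i, h⟩ : V) = b i)

/-- The query defined by `φ` is Gaifman-local: for some radius `r`, tuples of one graph with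
isomorphic `r`-neighbourhoods are not distinguished by the query. -/
def GaifmanLocal {m k : ℕ} (φ : (voc m).Formula (Fin k)) : Prop :=
  ∃ r : ℕ, ∀ (V : Type) [Fintype V] (G : ColGraph m V) (a b : Fin k → V),
    NbhdIso G r a b → (a ∈ query φ G ↔ b ∈ query φ G)

end Pool.Agent.AddInv
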