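import Pool.Agent.AddInv.Key
import Mathlib.Combinatorics.SimpleGraph.Walk.Maps

/-!
# The graphs on which locality fails
-/

namespace Pool.Agent.AddInv

open Finset

section Example

variable (N L : ℕ)

/-- Vertices: two base sets, pairs, relations, two paths. -/
abbrev Vtx : Type :=
  ((Fin N ⊕ Fin N) ⊕ (Fin N × Fin N)) ⊕ (Set (Fin N × Fin N) ⊕ (Bool × Fin L))

variable {N L}

def vB (b : Fin N) : Vtx N L := Sum.inl (Sum.inl (Sum.inl b))
def vC (c : Fin N) : Vtx N L := Sum.inl (Sum.inl (Sum.inr c))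
def vP (p : Fin N × Fin N) : Vtx N L := Sum.inl (Sum.inr p)
def vQ (q : Set (Fin N × Fin N)) : Vtx N L := Sum.inr (Sum.inl q)
def vS (s : Bool × Fin L) : Vtx N L := Sum.inr (Sum.inr s)

/-- Directed edges. -/
inductive Dir : Vtx N L → Vtx N L → Prop
  | pb (p : Fin N × Fin N) : Dir (vP p) (vB p.1)
  | pc (p : Fin N × Fin N) : Dir (vP p) (vC p.2)
  | pq (p : Fin N × Fin N) (q : Set (Fin N × Fin N)) (h : p ∈ q) : Dir (vP p) (vQ q)
  | ss (i : Bool) (j j' : Fin L) (h : j.val + 1 = j'.val) : Dir (vS (i, j)) (vS (i, j'))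

/-- The colours. -/
def colr : Fin 6 → Vtx N L → Prop :=
  ![fun v => ∃ b, v = vB b, fun v => ∃ c, v = vC c, fun v => ∃ p, v = vP p,
    fun v => ∃ q, v = vQ q, fun v => ∃ s, v = vS s,
    fun v => ∃ j : Fin L, j.val + 1 = L ∧ v = vS (true, j)]

variable (N L) in
def Gr : ColGraph 6 (Vtx N L) where
  graph := SimpleGraph.fromRel Dir
  colour := colr

theorem adj_iff (x y : Vtx N L) : (Gr N L).graph.Adj x y ↔ x ≠ y ∧ (Dir x y ∨ Dir y x) := by
  simp [Gr]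

theorem adj_pb (p : Fin N × Fin N) (b : Fin N) :
    (Gr N L).graph.Adj (vP p) (vB b) ↔ p.1 = b := by
  rw [adj_iff]
  constructor
  · rintro ⟨-, h | h⟩
    · generalize hx : (vP p : Vtx N L) = x at h
      generalize hy : (vB b : Vtx N L) = y at h
      cases h <;> simp_all [vP, vB, vC, vQ, vS]
    · generalize hx : (vP p : Vtx N L) = x at h
      generalize hy : (vB b : Vtx N L) = y at h
      cases h <;> simp_all [vP, vB, vC, vQ, vS]
  · rintro rfl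
    exact ⟨by simp [vP, vB], Or.inl (Dir.pb p)⟩

theorem adj_pc (p : Fin N × Fin N) (c : Fin N) :
    (Gr N L).graph.Adj (vP p) (vC c) ↔ p.2 = c := by
  rw [adj_iff]
  constructor
  · rintro ⟨-, h | h⟩
    · generalize hx : (vP p : Vtx N L) = x at h
      generalize hy : (vC c : Vtx N L) = y at h
      cases h <;> simp_all [vP, vB, vC, vQ, vS]
    · generalize hx : (vP p : Vtx N L) = x at h
      generalize hy : (vC c : Vtx N L) = y at h
      cases h <;> simp_all [vP, vB, vC, vQ, vS]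
  · rintro rfl
    exact ⟨by simp [vP, vC], Or.inl (Dir.pc p)⟩

theorem adj_pq (p : Fin N × Fin N) (q : Set (Fin N × Fin N)) :
    (Gr N L).graph.Adj (vP p) (vQ q) ↔ p ∈ q := by
  rw [adj_iff]
  constructor
  · rintro ⟨-, h | h⟩
    · generalize hx : (vP p : Vtx N L) = x at h
      generalize hy : (vQ q : Vtx N L) = y at h
      cases h <;> simp_all [vP, vB, vC, vQ, vS]
    · generalize hx : (vP p : Vtx N L) = x at h
      generalize hy : (vQ q : Vtx N L) = y at h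
      cases h <;> simp_all [vP, vB, vC, vQ, vS]
  · intro h
    exact ⟨by simp [vP, vQ], Or.inl (Dir.pq p q h)⟩

theorem adj_s (s : Bool × Fin L) (v : Vtx N L) :
    (Gr N L).graph.Adj (vS s) v ↔
      ∃ j : Fin L, (s.2.val + 1 = j.val ∨ j.val + 1 = s.2.val) ∧ v = vS (s.1, j) := by
  rw [adj_iff]
  constructor
  · rintro ⟨-, h | h⟩
    · generalize hx : (vS s : Vtx N L) = x at h
      cases h with
      | ss i j j' h =>
        simp only [vS, Sum.inr.injEq] at hx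
        subst hx
        exact ⟨j', Or.inl h, rfl⟩
      | _ => simp_all [vP, vB, vC, vQ, vS]
    · generalize hx : (vS s : Vtx N L) = x at h
      cases h with
      | ss i j j' h =>
        simp only [vS, Sum.inr.injEq] at hx
        subst hx
        exact ⟨j, Or.inr h, rfl⟩
      | _ => simp_all [vP, vB, vC, vQ, vS]
  · rintro ⟨j, h | h, rfl⟩
    · refine ⟨?_, Or.inl ?_⟩
      · intro e
        simp only [vS, Sum.inr.injEq, Prod.ext_iff] at e
        have := congrArg Fin.val e.2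
        omega
      · exact Dir.ss s.1 s.2 j h
    · refine ⟨?_, Or.inr ?_⟩
      · intro e
        simp only [vS, Sum.inr.injEq, Prod.ext_iff] at e
        have := congrArg Fin.val e.2
        omega
      · exact Dir.ss s.1 j s.2 h

theorem rel_iff (q : Set (Fin N × Fin N)) (b c : Fin N) :
    rel (Gr N L).graph.Adj (Gr N L).colour (vQ q) (vB b) (vC c) ↔ (b, c) ∈ q := by
  constructor
  · rintro ⟨_, ⟨p, rfl⟩, h1, h2, h3⟩
    rw [adj_pb] at h1
    rw [adj_pc] at h2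
    rw [adj_pq] at h3
    subst h1 h2
    exact h3
  · intro h
    exact ⟨vP (b, c), ⟨_, rfl⟩, (adj_pb _ _).2 rfl, (adj_pc _ _).2 rfl, (adj_pq _ _).2 h⟩

theorem wf_Gr (hN : 3 ≤ N) : WF (Gr N L).graph.Adj (Gr N L).colour := by
  refine ⟨?_, ?_, ?_, ?_, ?_, ?_, ?_⟩
  · rintro (((b | c) | p) | (q | s))
    · exact Or.inl ⟨b, rfl⟩
    · exact Or.inr (Or.inl ⟨c, rfl⟩)
    · exact Or.inr (Or.inr (Or.inl ⟨p, rfl⟩))
    · exact Or.inr (Or.inr (Or.inr (Or.inl ⟨q, rfl⟩)))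
    · exact Or.inr (Or.inr (Or.inr (Or.inr ⟨s, rfl⟩)))
  · rintro _ ⟨p, rfl⟩
    exact ⟨vB p.1, ⟨_, rfl⟩, vC p.2, ⟨_, rfl⟩, (adj_pb _ _).2 rfl, (adj_pc _ _).2 rfl⟩
  · rintro _ ⟨p, rfl⟩ _ ⟨p', rfl⟩ _ ⟨b, rfl⟩ _ ⟨c, rfl⟩ h1 h2 h3 h4
    rw [adj_pb] at h1 h3
    rw [adj_pc] at h2 h4
    rw [show p = p' from Prod.ext (h1.trans h3.symm) (h2.trans h4.symm)]
  · rintro _ ⟨q, rfl⟩ _ ⟨q', rfl⟩ h
    have : q = q' := by
      ext ⟨b, c⟩
      have := h _ ⟨b, rfl⟩ _ ⟨c, rfl⟩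
      rwa [rel_iff, rel_iff] at this
    rw [this]
  · refine ⟨vQ ∅, ⟨_, rfl⟩, ?_⟩
    rintro _ ⟨b, rfl⟩ _ ⟨c, rfl⟩
    rw [rel_iff]
    simp
  · rintro _ ⟨q, rfl⟩ _ ⟨b, rfl⟩ _ ⟨c, rfl⟩
    refine ⟨vQ (insert (b, c) q), ⟨_, rfl⟩, ?_⟩
    rintro _ ⟨b', rfl⟩ _ ⟨c', rfl⟩
    rw [rel_iff, rel_iff]
    simp only [Set.mem_insert_iff, Prod.mk.injEq, vB, vC, Sum.inl.injEq, Sum.inr.injEq]
    tauto
  · refine ⟨vB ⟨0, by omega⟩, ⟨_, rfl⟩, vB ⟨1, by omega⟩, ⟨_, rfl⟩, vB ⟨2, by omega⟩, ⟨_, rfl⟩,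
      ?_, ?_, ?_⟩ <;> simp [vB]

theorem small_Gr (h : 2 * L ≤ N) (hN : 3 ≤ N) : Small (Gr N L).colour := by
  refine ⟨fun v => match v with
    | Sum.inr (Sum.inr (i, j)) => vB ⟨2 * j.val + (if i then 1 else 0), by
        have := j.isLt; split_ifs <;> omega⟩
    | _ => vB ⟨0, by omega⟩, ?_, ?_⟩
  · rintro _ ⟨⟨i, j⟩, rfl⟩
    exact ⟨_, rfl⟩
  · rintro _ ⟨⟨i, j⟩, rfl⟩ _ ⟨⟨i', j'⟩, rfl⟩ e
    simp only [vS, vB, Sum.inl.injEq, Fin.mk.injEq] at e
    have : i = i' := by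
      cases i <;> cases i' <;> simp at e ⊢ <;> omega
    subst this
    have : j = j' := Fin.ext (by omega)
    subst this
    rfl

theorem inj_Gr : ∃ M, (Gr N L).colour 3 M ∧ InjRel (Gr N L).graph.Adj (Gr N L).colour M := by
  refine ⟨vQ {p | p.1 = p.2}, ⟨_, rfl⟩, ?_, ?_⟩
  · rintro _ ⟨b, rfl⟩
    exact ⟨vC b, ⟨_, rfl⟩, (rel_iff _ _ _).2 rfl⟩
  · rintro _ ⟨b, rfl⟩ _ ⟨b', rfl⟩ _ ⟨c, rfl⟩ h h'
    rw [rel_iff] at h h'
    have h1 : b = c := h
    have h2 : b' = c := h'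
    rw [h1, h2]

theorem reach_true (hL : 0 < L) :
    Reach (Gr N L).graph.Adj (Gr N L).colour (vS (true, ⟨0, hL⟩)) := by
  intro T h0 _ hcl
  have key : ∀ (j : ℕ) (hj : j < L), T (vS (true, ⟨j, hj⟩)) := by
    intro j
    induction j with
    | zero => intro _; exact h0
    | succ n ih =>
      intro hj
      refine hcl _ (ih (by omega)) _ ⟨_, rfl⟩ ?_
      rw [adj_s]
      exact ⟨⟨n + 1, hj⟩, Or.inl rfl, rfl⟩
  exact ⟨vS (true, ⟨L - 1, by omega⟩), key _ _, ⟨⟨L - 1, by omega⟩, by simp; omega, rfl⟩⟩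

theorem reach_false (hL : 0 < L) :
    ¬ Reach (Gr N L).graph.Adj (Gr N L).colour (vS (false, ⟨0, hL⟩)) := by
  intro h
  obtain ⟨_, ⟨j, rfl⟩, j', -, h2⟩ := h (fun v => ∃ j, v = vS (false, j)) ⟨_, rfl⟩
    (by rintro _ ⟨j, rfl⟩; exact ⟨_, rfl⟩)
    (by
      rintro _ ⟨j, rfl⟩ _ ⟨s, rfl⟩ h
      rw [adj_s] at h
      obtain ⟨j', -, h⟩ := h
      exact ⟨j', h⟩)
  simp [vS] at h2

/-- the automorphism of the graph (without colours) exchanging the two paths -/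
def swp : Vtx N L → Vtx N L
  | Sum.inr (Sum.inr (i, j)) => Sum.inr (Sum.inr (!i, j))
  | x => x

theorem swp_swp (x : Vtx N L) : swp (swp x) = x := by
  rcases x with ((b | c) | p) | (q | ⟨i, j⟩) <;> simp [swp]

theorem dir_swp (x y : Vtx N L) (h : Dir x y) : Dir (swp x) (swp y) := by
  cases h with
  | pb p => exact Dir.pb p
  | pc p => exact Dir.pc p
  | pq p q h => exact Dir.pq p q h
  | ss i j j' h => exact Dir.ss (!i) j j' h

theorem adj_swp (x y : Vtx N L) (h : (Gr N L).graph.Adj x y) :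
    (Gr N L).graph.Adj (swp x) (swp y) := by
  rw [adj_iff] at h ⊢
  refine ⟨fun e => h.1 ?_, h.2.imp (dir_swp x y) (dir_swp y x)⟩
  rw [← swp_swp x, ← swp_swp y, e]

def swpHom : (Gr N L).graph →g (Gr N L).graph := ⟨swp, fun {a b} h => adj_swp a b h⟩

theorem walk_s {u v : Vtx N L} (p : (Gr N L).graph.Walk u v) (i : Bool) (j : Fin L)
    (hu : u = vS (i, j)) : ∃ j' : Fin L, v = vS (i, j') ∧ j'.val ≤ j.val + p.length := by
  induction p generalizing j with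
  | nil => exact ⟨j, hu, by simp⟩
  | cons h p ih =>
    subst hu
    rw [adj_s] at h
    obtain ⟨j', h1, h2⟩ := h
    obtain ⟨j'', h3, h4⟩ := ih j' h2
    refine ⟨j'', h3, ?_⟩
    simp only [SimpleGraph.Walk.length_cons]
    simp only at h1
    omega

theorem ball_swp {r : ℕ} {k : ℕ} {a : Fin k → Vtx N L} {v : Vtx N L}
    (h : v ∈ ball (Gr N L) r a) : swp v ∈ ball (Gr N L) r (fun i => swp (a i)) := by
  obtain ⟨i, p, hp⟩ := h
  exact ⟨i, p.map swpHom, (SimpleGraph.Walk.length_map swpHom p).trans_le hp⟩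

theorem nbhdIso_Gr {r : ℕ} (hL : 0 < L) (hr : r + 1 < L) :
    NbhdIso (Gr N L) r (fun _ : Fin 1 => vS (true, ⟨0, hL⟩)) (fun _ => vS (false, ⟨0, hL⟩)) := by
  refine ⟨⟨fun x => ⟨swp x.1, ball_swp x.2⟩, fun x => ⟨swp x.1, ball_swp x.2⟩, ?_, ?_⟩, ?_, ?_, ?_⟩
  · intro x; exact Subtype.ext (swp_swp _)
  · intro x; exact Subtype.ext (swp_swp _)
  · intro x y
    constructor
    · exact adj_swp _ _
    · intro h
      have := adj_swp _ _ h
      simpa [swp_swp] using this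
  · rintro c ⟨x, i, p, hp⟩
    obtain ⟨j, rfl, hj⟩ := walk_s p true ⟨0, hL⟩ rfl
    have hjr : j.val ≤ r := by simp at hj; omega
    change colr c (vS (true, j)) ↔ colr c (vS (false, j))
    have hne : ¬ (j.val + 1 = L) := by omega
    fin_cases c <;> simp [colr, vS, vB, vC, vP, vQ]
    exact hne
  · intro i h
    rfl

end Example

/-- The witnessing formula. -/
noncomputable def Phi : (voc 6).Formula (Fin 1) := Fm.toFormula₁ Fm.fPhi

theorem sat_Phi {V : Type} [Fintype V] (G : ColGraph 6 V) (f : Numbering V) (a : Fin 1 → V) :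
    Sat G f Phi a ↔ (WF G.graph.Adj G.colour ∧ G.colour 4 (a 0) ∧
      (∃ M, G.colour 3 M ∧ InjRel G.graph.Adj G.colour M) ∧ Small G.colour ∧
      Reach G.graph.Adj G.colour (a 0)) := by
  unfold Phi
  rw [Fm.sat_toFormula₁, Fm.eval_fPhi]
  exact key f (a 0)

theorem addInvariant_Phi : AddInvariant Phi := by
  intro V _ G f₁ f₂ a
  rw [sat_Phi, sat_Phi]

theorem not_gaifmanLocal_Phi : ¬ GaifmanLocal Phi := by
  rintro ⟨r, hr⟩
  have h := hr (Vtx (2 * (r + 2) + 3) (r + 2)) (Gr _ _)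
    (fun _ : Fin 1 => vS (true, ⟨0, by omega⟩)) (fun _ => vS (false, ⟨0, by omega⟩))
    (nbhdIso_Gr (by omega) (by omega))
  have h1 : (fun _ : Fin 1 => (vS (true, ⟨0, by omega⟩) : Vtx (2 * (r + 2) + 3) (r + 2))) ∈
      query Phi (Gr _ _) := by
    intro f
    rw [sat_Phi]
    exact ⟨wf_Gr (by omega), ⟨_, rfl⟩, inj_Gr, small_Gr (by omega) (by omega),
      reach_true (by omega)⟩
  have h2 := h.1 h1 (Fintype.equivFin _)
  rw [sat_Phi] at h2
  exact reach_false (by omega) h2.2.2.2.2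

end Pool.Agent.AddInv
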