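import Pool.Agent.AddInv.Defs
import Mathlib.Tactic

/-!
# Named-variable formulas and their translation to first-order formulas
-/

namespace Pool.Agent.AddInv

open FirstOrder

/-- Formulas with named variables (natural numbers) over the vocabulary with `6` colours. -/
inductive Fm : Type
  | adj (i j : ℕ) : Fm
  | col (c : Fin 6) (i : ℕ) : Fm
  | plus (i j k : ℕ) : Fm
  | eq (i j : ℕ) : Fm
  | not (φ : Fm) : Fm
  | and (φ ψ : Fm) : Fm
  | ex (i : ℕ) (φ : Fm) : Fm

namespace Fm

def all (i : ℕ) (φ : Fm) : Fm := .not (.ex i (.not φ))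
def or (φ ψ : Fm) : Fm := .not (.and (.not φ) (.not ψ))
def imp (φ ψ : Fm) : Fm := .not (.and φ (.not ψ))
def iff (φ ψ : Fm) : Fm := .and (imp φ ψ) (imp ψ φ)

/-- Semantics in a set with given interpretations. -/
def eval {M : Type} (A : M → M → Prop) (C : Fin 6 → M → Prop) (Pl : M → M → M → Prop) :
    Fm → (ℕ → M) → Prop
  | adj i j, v => A (v i) (v j)
  | col c i, v => C c (v i)
  | plus i j k, v => Pl (v i) (v j) (v k)
  | eq i j, v => v i = v j
  | not φ, v => ¬ eval A C Pl φ v
  | and φ ψ, v => eval A C Pl φ v ∧ eval A C Pl ψ v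
  | ex i φ, v => ∃ x, eval A C Pl φ (Function.update v i x)

variable {M : Type} (A : M → M → Prop) (C : Fin 6 → M → Prop) (Pl : M → M → M → Prop)
  (v : ℕ → M)

theorem eval_all (i : ℕ) (φ : Fm) :
    eval A C Pl (all i φ) v ↔ ∀ x, eval A C Pl φ (Function.update v i x) := by
  simp [all, eval]

theorem eval_or (φ ψ : Fm) :
    eval A C Pl (or φ ψ) v ↔ eval A C Pl φ v ∨ eval A C Pl ψ v := by
  simp only [or, eval]; tauto

theorem eval_imp (φ ψ : Fm) :
    eval A C Pl (imp φ ψ) v ↔ (eval A C Pl φ v → eval A C Pl ψ v) := by
  simp only [imp, eval]; tauto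

theorem eval_iff (φ ψ : Fm) :
    eval A C Pl (iff φ ψ) v ↔ (eval A C Pl φ v ↔ eval A C Pl ψ v) := by
  simp only [iff, imp, eval]; tauto

/-- Translation to Mathlib formulas with free variables indexed by `ℕ`. -/
def toFormula : Fm → (voc 6).Formula ℕ
  | adj i j => Language.Relations.formula (L := voc 6) (n := 2) RelSym.adj
      ![Language.Term.var i, Language.Term.var j]
  | col c i => Language.Relations.formula (L := voc 6) (n := 1) (RelSym.colour c)
      ![Language.Term.var i]
  | plus i j k => Language.Relations.formula (L := voc 6) (n := 3) RelSym.plus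
      ![Language.Term.var i, Language.Term.var j, Language.Term.var k]
  | eq i j => Language.Term.equal (Language.Term.var i) (Language.Term.var j)
  | not φ => (toFormula φ).not
  | and φ ψ => toFormula φ ⊓ toFormula ψ
  | ex i φ => (Language.BoundedFormula.relabel (L := voc 6)
      (fun j => if j = i then (Sum.inr 0 : ℕ ⊕ Fin 1) else Sum.inl j) (toFormula φ)).ex

theorem realize_toFormula {V : Type} [Fintype V] (G : ColGraph 6 V) (f : Numbering V) (φ : Fm)
    (v : ℕ → V) :
    @Language.Formula.Realize (voc 6) V (G.expand f) ℕ (toFormula φ) v ↔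
      eval G.graph.Adj G.colour (fun a b c => num f a + num f b = num f c) φ v := by
  let _ := G.expand f
  induction φ generalizing v with
  | adj i j => exact Language.Formula.realize_rel (L := voc 6) (k := 2) (R := RelSym.adj)
  | col c i => exact Language.Formula.realize_rel (L := voc 6) (k := 1) (R := RelSym.colour c)
  | plus i j k => exact Language.Formula.realize_rel (L := voc 6) (k := 3) (R := RelSym.plus)
  | eq i j => simp [toFormula, eval]
  | not φ ih => simp [toFormula, eval, ih]
  | and φ ψ ih1 ih2 => simp [toFormula, eval, ih1, ih2]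
  | ex i φ ih =>
    simp only [toFormula, eval]
    rw [Language.Formula.Realize, Language.BoundedFormula.realize_ex]
    refine exists_congr fun x => ?_
    rw [Language.BoundedFormula.realize_relabel]
    refine Iff.trans ?_ (ih _)
    rw [Language.Formula.Realize]
    have h1 : (Sum.elim v ((Fin.snoc default x : Fin (0+1) → V) ∘ Fin.castAdd 0) ∘ fun j =>
        if j = i then Sum.inr 0 else Sum.inl j) = Function.update v i x := by
      funext j
      by_cases h : j = i
      · subst h; simp [Fin.snoc]
      · simp [h]
    rw [h1]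
    exact Language.Formula.boundedFormula_realize_eq_realize _ _ _

/-- Translation to a unary Mathlib formula (all free variables are identified). -/
def toFormula₁ (φ : Fm) : (voc 6).Formula (Fin 1) :=
  (toFormula φ).relabel (fun _ => (0 : Fin 1))

theorem sat_toFormula₁ {V : Type} [Fintype V] (G : ColGraph 6 V) (f : Numbering V) (φ : Fm)
    (a : Fin 1 → V) :
    Sat G f (toFormula₁ φ) a ↔
      eval G.graph.Adj G.colour (fun a b c => num f a + num f b = num f c) φ (fun _ => a 0) := by
  let _ := G.expand f
  unfold Sat toFormula₁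
  refine Iff.trans (Language.Formula.realize_relabel (L := voc 6)) ?_
  exact realize_toFormula G f φ _

end Fm
end Pool.Agent.AddInv
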