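import Pool.Agent.AddInv.Sem

/-!
# Invariance of the witnessing formula
-/

namespace Pool.Agent.AddInv

open Finset

/-! ## Arithmetic of shifts -/

section Shift

variable {V : Type} [Fintype V] (f : Numbering V)

/-- the addition relation of a numbering -/
def plusOf (a b c : V) : Prop := num f a + num f b = num f c

theorem num_pos (v : V) : 1 ≤ num f v := by unfold num; omega

theorem num_le (v : V) : num f v ≤ Fintype.card V := by
  unfold num; have := (f v).isLt; omega

theorem num_inj {v w : V} (h : num f v = num f w) : v = w := by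
  unfold num at h
  exact f.injective (Fin.ext (by omega))

theorem exists_num (i : ℕ) (h1 : 1 ≤ i) (h2 : i ≤ Fintype.card V) : ∃ v, num f v = i := by
  refine ⟨f.symm ⟨i - 1, by omega⟩, ?_⟩
  unfold num
  simp only [Equiv.apply_symm_apply]
  omega

theorem isMax_iff (m : V) : isMax (plusOf f) m ↔ num f m = Fintype.card V := by
  constructor
  · intro h
    by_contra hne
    have hlt : num f m < Fintype.card V := lt_of_le_of_ne (num_le f m) hne
    obtain ⟨v, hv⟩ := exists_num f 1 le_rfl (le_trans (num_pos f m) (num_le f m))
    obtain ⟨w, hw⟩ := exists_num f (num f m + 1) (by omega) (by omega)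
    exact h v w (by unfold plusOf; omega)
  · intro h v w hvw
    unfold plusOf at hvw
    have := num_pos f v
    have := num_le f w
    omega

theorem shift_imp {t y z : V} (h : shift (plusOf f) t y z) :
    num f y + num f t = num f z ∨ num f y + num f t = num f z + Fintype.card V := by
  rcases h with h | ⟨u, m, hm, h1, h2⟩
  · exact Or.inl h
  · right
    rw [isMax_iff] at hm
    unfold plusOf at h1 h2
    omega

theorem shift_of {t y z : V} (ht : num f t < Fintype.card V)
    (h : num f y + num f t = num f z ∨ num f y + num f t = num f z + Fintype.card V) :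
    shift (plusOf f) t y z := by
  rcases h with h | h
  · exact Or.inl h
  · right
    obtain ⟨u, hu⟩ := exists_num f (Fintype.card V - num f t) (by omega) (by omega)
    obtain ⟨m, hm⟩ := exists_num f (Fintype.card V) (by have := num_pos f t; omega) le_rfl
    refine ⟨u, m, (isMax_iff f m).2 hm, ?_, ?_⟩ <;> unfold plusOf <;> omega

theorem shift_unique {t y z z' : V} (h : shift (plusOf f) t y z) (h' : shift (plusOf f) t y z') :
    z = z' := by
  apply num_inj f
  have h1 := shift_imp f h
  have h2 := shift_imp f h'
  have := num_pos f z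
  have := num_pos f z'
  have := num_le f z
  have := num_le f z'
  omega

/-- For each vertex `t` and `y` a shifted vertex. -/
theorem exists_shift (t y : V) (ht : num f t < Fintype.card V) :
    ∃ z, shift (plusOf f) t y z := by
  by_cases h : num f y + num f t ≤ Fintype.card V
  · obtain ⟨z, hz⟩ := exists_num f (num f y + num f t) (by have := num_pos f t; omega) h
    exact ⟨z, shift_of f ht (Or.inl hz.symm)⟩
  · have := num_le f y
    obtain ⟨z, hz⟩ := exists_num f (num f y + num f t - Fintype.card V) (by omega) (by omega)
    exact ⟨z, shift_of f ht (Or.inr (by omega))⟩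

theorem shift_inj_left {t y y' z : V} (h : shift (plusOf f) t y z)
    (h' : shift (plusOf f) t y' z) : y = y' := by
  apply num_inj f
  have h1 := shift_imp f h
  have h2 := shift_imp f h'
  have := num_pos f y
  have := num_pos f y'
  have := num_le f y
  have := num_le f y'
  omega

theorem shift_inj_t {t t' y z : V} (ht : num f t < Fintype.card V) (ht' : num f t' < Fintype.card V)
    (h : shift (plusOf f) t y z) (h' : shift (plusOf f) t' y z) : t = t' := by
  apply num_inj f
  have h1 := shift_imp f h
  have h2 := shift_imp f h'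
  have := num_pos f t
  have := num_pos f t'
  omega

/-- If `S` and the complement of `Q` are small then some shift moves `S` into `Q`. -/
theorem exists_good_shift (S Q : V → Prop)
    (h : Nat.card {v // S v} * Nat.card {v // ¬ Q v} + 1 < Fintype.card V) :
    ∃ t, num f t < Fintype.card V ∧ ∀ y, S y → ∃ z, Q z ∧ shift (plusOf f) t y z := by
  classical
  by_contra hcon
  push Not at hcon
  -- for each `t` choose bad `y`, `z`
  have hbad : ∀ t : {t : V // num f t < Fintype.card V},
      ∃ yz : {v // S v} × {v // ¬ Q v}, shift (plusOf f) t.1 yz.1.1 yz.2.1 := by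
    rintro ⟨t, ht⟩
    obtain ⟨y, hy, hz⟩ := hcon t ht
    obtain ⟨z, hz'⟩ := exists_shift f t y ht
    exact ⟨(⟨y, hy⟩, ⟨z, fun hQ => hz z hQ hz'⟩), hz'⟩
  choose g hg using hbad
  have hginj : Function.Injective g := by
    rintro ⟨t, ht⟩ ⟨t', ht'⟩ hgg
    have h1 := hg ⟨t, ht⟩
    have h2 := hg ⟨t', ht'⟩
    rw [hgg] at h1
    exact Subtype.ext (shift_inj_t f ht ht' h1 h2)
  have hcard : Nat.card {t : V // num f t < Fintype.card V} ≤
      Nat.card ({v // S v} × {v // ¬ Q v}) := Nat.card_le_card_of_injective g hginj
  rw [Nat.card_prod] at hcard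
  have hcard2 : Fintype.card V ≤ Nat.card {t : V // num f t < Fintype.card V} + 1 := by
    have hle : Nat.card (Fin (Fintype.card V - 1)) ≤
        Nat.card {t : V // num f t < Fintype.card V} := by
      refine Nat.card_le_card_of_injective
        (fun i => ⟨f.symm ⟨i.1, by omega⟩, by unfold num; simp; omega⟩) ?_
      intro i j hij
      simp only [Subtype.mk.injEq, EmbeddingLike.apply_eq_iff_eq, Fin.mk.injEq] at hij
      exact Fin.ext hij
    simp only [Nat.card_eq_fintype_card, Fintype.card_fin] at hle
    simp only [Nat.card_eq_fintype_card] at *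
    omega
  omega

end Shift

/-! ## Distinguishing sets (Bondy) -/

theorem exists_distinguishing {ι X : Type} [DecidableEq ι] [DecidableEq X] (r : ι → X → Prop)
    (E : Set X) (S : Finset ι)
    (hr : ∀ y ∈ S, ∀ y' ∈ S, (∀ x ∈ E, (r y x ↔ r y' x)) → y = y') :
    ∃ D : Finset X, (∀ x ∈ D, x ∈ E) ∧ D.card ≤ S.card ∧
      ∀ y ∈ S, ∀ y' ∈ S, (∀ x ∈ D, (r y x ↔ r y' x)) → y = y' := by
  classical
  induction S using Finset.induction_on with
  | empty => exact ⟨∅, by simp, by simp, by simp⟩
  | insert a S ha ih =>
    obtain ⟨D, hDE, hDc, hD⟩ := ih (fun y hy y' hy' h =>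
      hr y (Finset.mem_insert_of_mem hy) y' (Finset.mem_insert_of_mem hy') h)
    by_cases hex : ∃ y ∈ S, ∀ x ∈ D, (r a x ↔ r y x)
    · obtain ⟨y₀, hy₀, hy₀D⟩ := hex
      have hne : a ≠ y₀ := fun h => ha (h ▸ hy₀)
      have : ∃ x ∈ E, ¬ (r a x ↔ r y₀ x) := by
        by_contra hcon
        push Not at hcon
        exact hne (hr a (Finset.mem_insert_self _ _) y₀ (Finset.mem_insert_of_mem hy₀)
          (fun x hx => by have := hcon x hx; tauto))
      obtain ⟨x₀, hx₀E, hx₀⟩ := this
      refine ⟨insert x₀ D, ?_, ?_, ?_⟩
      · intro x hx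
        rcases Finset.mem_insert.1 hx with rfl | hx
        · exact hx₀E
        · exact hDE x hx
      · rw [Finset.card_insert_of_notMem ha]
        exact (Finset.card_insert_le _ _).trans (by omega)
      · intro y hy y' hy' h
        have hsub : ∀ x ∈ D, (r y x ↔ r y' x) := fun x hx => h x (Finset.mem_insert_of_mem hx)
        have hx0 := h x₀ (Finset.mem_insert_self _ _)
        rcases Finset.mem_insert.1 hy with rfl | hy1
        · rcases Finset.mem_insert.1 hy' with rfl | hy1'
          · rfl
          · exfalso
            have : y₀ = y' := hD y₀ hy₀ y' hy1' (fun x hx => (hy₀D x hx).symm.trans (hsub x hx))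
            subst this
            exact hx₀ hx0
        · rcases Finset.mem_insert.1 hy' with rfl | hy1'
          · exfalso
            have : y₀ = y := hD y₀ hy₀ y hy1 (fun x hx =>
              (hy₀D x hx).symm.trans (hsub x hx).symm)
            subst this
            exact hx₀ hx0.symm
          · exact hD y hy1 y' hy1' hsub
    · push Not at hex
      refine ⟨D, hDE, hDc.trans (Finset.card_le_card (Finset.subset_insert _ _)), ?_⟩
      intro y hy y' hy' h
      rcases Finset.mem_insert.1 hy with rfl | hy1
      · rcases Finset.mem_insert.1 hy' with rfl | hy1'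
        · rfl
        · obtain ⟨x, hx, hx'⟩ := hex y' hy1'
          exact absurd (h x hx) (by tauto)
      · rcases Finset.mem_insert.1 hy' with rfl | hy1'
        · obtain ⟨x, hx, hx'⟩ := hex y hy1
          exact absurd (h x hx).symm (by tauto)
        · exact hD y hy1 y' hy1' h

end Pool.Agent.AddInv
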