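import Pool.Agent.AddInv.Inv

/-!
# The key equivalence
-/

namespace Pool.Agent.AddInv

open Finset

section

variable {V : Type} [Fintype V] {A : V → V → Prop} {C : Fin 6 → V → Prop}

/-- Every relation between the two base sets is coded. -/
theorem rich (h : WF A C) (X : V → V → Prop) :
    ∃ q, C 3 q ∧ ∀ b, C 0 b → ∀ c, C 1 c → (rel A C q b c ↔ X b c) := by
  classical
  obtain ⟨-, -, -, -, h5, h6, -⟩ := h
  have key : ∀ F : Finset (V × V), ∃ q, C 3 q ∧ ∀ b, C 0 b → ∀ c, C 1 c →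
      (rel A C q b c ↔ (b, c) ∈ F) := by
    intro F
    induction F using Finset.induction_on with
    | empty =>
      obtain ⟨q, hq, hq'⟩ := h5
      exact ⟨q, hq, fun b hb c hc => by simpa using hq' b hb c hc⟩
    | insert a F ha ih =>
      obtain ⟨q, hq, hq'⟩ := ih
      obtain ⟨b₀, c₀⟩ := a
      by_cases hb : C 0 b₀
      · by_cases hc : C 1 c₀
        · obtain ⟨q', hq1, hq2⟩ := h6 q hq b₀ hb c₀ hc
          refine ⟨q', hq1, fun b hb c hc => ?_⟩
          rw [hq2 b hb c hc, hq' b hb c hc]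
          simp only [Finset.mem_insert, Prod.mk.injEq]
          tauto
        · refine ⟨q, hq, fun b hb c hc' => ?_⟩
          rw [hq' b hb c hc']
          simp only [Finset.mem_insert, Prod.mk.injEq]
          constructor
          · tauto
          · rintro (⟨-, rfl⟩ | h)
            · exact absurd hc' hc
            · exact h
      · refine ⟨q, hq, fun b hb' c hc' => ?_⟩
        rw [hq' b hb' c hc']
        simp only [Finset.mem_insert, Prod.mk.injEq]
        constructor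
        · tauto
        · rintro (⟨rfl, -⟩ | h)
          · exact absurd hb' hb
          · exact h
  obtain ⟨q, hq, hq'⟩ := key (Finset.univ.filter (fun p : V × V => X p.1 p.2))
  exact ⟨q, hq, fun b hb c hc => by simpa using hq' b hb c hc⟩

/-- injection of the small part into the first base set -/
def Small (C : Fin 6 → V → Prop) : Prop :=
  ∃ g : V → V, (∀ y, C 4 y → C 0 (g y)) ∧ ∀ y, C 4 y → ∀ y', C 4 y' → g y = g y' → y = y'

/-- every closed subset of the small part containing `x` meets the marked set -/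
def Reach (A : V → V → Prop) (C : Fin 6 → V → Prop) (x : V) : Prop :=
  ∀ T : V → Prop, T x → (∀ y, T y → C 4 y) → (∀ y, T y → ∀ z, C 4 z → A y z → T z) →
    ∃ y, T y ∧ C 5 y

theorem pow_bound (N : ℕ) (h : 9 ≤ N) : N * N + 1 < 2 ^ N := by
  induction N, h using Nat.le_induction with
  | base => norm_num
  | succ n hn ih =>
    rw [pow_succ]
    nlinarith

theorem count (h : WF A C) (hs : Small C) (hM : ∃ M, C 3 M ∧ InjRel A C M) :
    Nat.card {v // C 4 v} * Nat.card {v // ¬ C 3 v} + 1 < Fintype.card V := by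
  classical
  have hrich := rich h
  obtain ⟨h1, h2, h3, h4, h5, h6, h7⟩ := h
  set s := Nat.card {v // C 4 v} with hsdef
  set b₁ := Nat.card {v // C 0 v} with hb1
  set b₂ := Nat.card {v // C 1 v} with hb2
  set p := Nat.card {v // C 2 v} with hp
  have hs1 : s ≤ b₁ := by
    obtain ⟨g, hg1, hg2⟩ := hs
    refine Nat.card_le_card_of_injective
      (fun y : {v // C 4 v} => (⟨g y.1, hg1 y.1 y.2⟩ : {v // C 0 v})) ?_
    intro y y' hyy
    exact Subtype.ext (hg2 _ y.2 _ y'.2 (congrArg Subtype.val hyy))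
  have hb12 : b₁ ≤ b₂ := by
    obtain ⟨M, -, hM1, hM2⟩ := hM
    choose g hg using hM1
    refine Nat.card_le_card_of_injective
      (fun y : {v // C 0 v} => (⟨g y.1 y.2, (hg y.1 y.2).1⟩ : {v // C 1 v})) ?_
    intro y y' hyy
    have e : g y.1 y.2 = g y'.1 y'.2 := congrArg Subtype.val hyy
    exact Subtype.ext (hM2 _ y.2 _ y'.2 _ (hg y.1 y.2).1 (hg y.1 y.2).2
      (by rw [e]; exact (hg y'.1 y'.2).2))
  have hpb : p ≤ b₁ * b₂ := by
    rw [hb1, hb2, ← Nat.card_prod]
    choose g hg g' hg' using h2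
    refine Nat.card_le_card_of_injective
      (fun y : {v // C 2 v} => ((⟨g y.1 y.2, hg y.1 y.2⟩, ⟨g' y.1 y.2, (hg' y.1 y.2).1⟩) :
        {v // C 0 v} × {v // C 1 v})) ?_
    intro y y' hyy
    simp only [Prod.mk.injEq, Subtype.mk.injEq] at hyy
    refine Subtype.ext (h3 _ y.2 _ y'.2 _ (hg y.1 y.2) _ (hg' y.1 y.2).1 (hg' y.1 y.2).2.1
      (hg' y.1 y.2).2.2 ?_ ?_)
    · rw [hyy.1]; exact (hg' y'.1 y'.2).2.1
    · rw [hyy.2]; exact (hg' y'.1 y'.2).2.2
  have hb3 : 3 ≤ b₁ := by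
    obtain ⟨x, hx, y, hy, z, hz, hxy, hyz, hxz⟩ := h7
    have : Nat.card (Fin 3) ≤ b₁ := by
      refine Nat.card_le_card_of_injective
        (![⟨x, hx⟩, ⟨y, hy⟩, ⟨z, hz⟩] : Fin 3 → {v // C 0 v}) ?_
      intro i j hij
      fin_cases i <;> fin_cases j <;> simp_all
    simpa using this
  have hcompl : Nat.card {v // ¬ C 3 v} ≤ b₁ + b₂ + p + s := by
    rw [hb1, hb2, hp, hsdef]
    simp only [Nat.card_eq_fintype_card, Fintype.card_subtype]
    have hsub : (Finset.univ.filter (fun v => ¬ C 3 v)) ⊆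
        ((Finset.univ.filter (fun v => C 0 v) ∪ Finset.univ.filter (fun v => C 1 v)) ∪
          Finset.univ.filter (fun v => C 2 v)) ∪ Finset.univ.filter (fun v => C 4 v) := by
      intro v hv
      simp only [Finset.mem_filter, Finset.mem_univ, true_and, Finset.mem_union] at hv ⊢
      have := h1 v
      tauto
    refine (Finset.card_le_card hsub).trans ?_
    refine (Finset.card_union_le _ _).trans ?_
    refine Nat.add_le_add_right ?_ _
    refine (Finset.card_union_le _ _).trans ?_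
    refine Nat.add_le_add_right ?_ _
    exact Finset.card_union_le _ _
  have hpow : 2 ^ (b₁ * b₂) ≤ Fintype.card V := by
    have hle : Nat.card (Set ({v // C 0 v} × {v // C 1 v})) ≤ Nat.card V := by
      have hq : ∀ X : Set ({v // C 0 v} × {v // C 1 v}), ∃ q, C 3 q ∧
          ∀ b (hb : C 0 b) c (hc : C 1 c), (rel A C q b c ↔ ((⟨b, hb⟩, ⟨c, hc⟩) : _ × _) ∈ X) := by
        intro X
        obtain ⟨q, hq, hq'⟩ := hrich (fun b c => ∃ (hb : C 0 b) (hc : C 1 c),
          ((⟨b, hb⟩, ⟨c, hc⟩) : {v // C 0 v} × {v // C 1 v}) ∈ X)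
        refine ⟨q, hq, fun b hb c hc => ?_⟩
        rw [hq' b hb c hc]
        exact ⟨fun ⟨_, _, h⟩ => h, fun h => ⟨hb, hc, h⟩⟩
      choose g hg using hq
      refine Nat.card_le_card_of_injective g ?_
      intro X X' hXX
      ext ⟨⟨b, hb⟩, ⟨c, hc⟩⟩
      rw [← (hg X).2 b hb c hc, ← (hg X').2 b hb c hc, hXX]
    rw [Nat.card_eq_fintype_card (α := V)] at hle
    rw [hb1, hb2, ← Nat.card_prod]
    have : Nat.card (Set ({v // C 0 v} × {v // C 1 v})) =
        2 ^ Nat.card ({v // C 0 v} × {v // C 1 v}) := by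
      rw [Nat.card_eq_fintype_card, Nat.card_eq_fintype_card, Fintype.card_set]
    omega
  have hN : 9 ≤ b₁ * b₂ := by nlinarith
  have hfin := pow_bound _ hN
  have hprod : s * Nat.card {v // ¬ C 3 v} ≤ (b₁ * b₂) * (b₁ * b₂) := by
    calc s * Nat.card {v // ¬ C 3 v} ≤ b₁ * (b₁ + b₂ + b₁ * b₂ + b₁) :=
          Nat.mul_le_mul hs1 (by omega)
      _ ≤ (b₁ * b₂) * (b₁ * b₂) := by
          have e1 : b₁ * 3 ≤ b₁ * b₂ := Nat.mul_le_mul_left _ (by omega)
          have e2 : 3 * b₂ ≤ b₁ * b₂ := Nat.mul_le_mul_right _ hb3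
          have e3 : b₁ + b₂ + b₁ * b₂ + b₁ ≤ 3 * (b₁ * b₂) := by omega
          calc b₁ * (b₁ + b₂ + b₁ * b₂ + b₁) ≤ b₁ * (3 * (b₁ * b₂)) := Nat.mul_le_mul_left _ e3
            _ = (b₁ * 3) * (b₁ * b₂) := by ring
            _ ≤ (b₁ * b₂) * (b₁ * b₂) := Nat.mul_le_mul_right _ e1
  omega

omit [Fintype V] in
/-- A good tuple of parameters gives an injection of the small part into the first base set. -/
theorem small_of_good {Pl : V → V → V → Prop} {t M J1 J2 H : V}
    (h : good A C Pl t M J1 J2 H) : Small C := by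
  classical
  obtain ⟨h1, h2⟩ := h
  choose! g hg1 hg2 using h1
  exact ⟨g, hg1, fun y hy y' hy' e =>
    h2 y hy y' hy' (g y) (hg1 y hy) (hg2 y hy) (by rw [e]; exact hg2 y' hy')⟩

/-- With a good tuple, every subset of the small part is of the form `TU`. -/
theorem exists_TU {Pl : V → V → V → Prop} {t M J1 J2 H : V} (hw : WF A C)
    (hM : InjRel A C M) (h : good A C Pl t M J1 J2 H) (T : V → Prop) (hT : ∀ y, T y → C 4 y) :
    ∃ U, C 3 U ∧ ∀ y, TU A C Pl t M J1 J2 H U y ↔ T y := by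
  obtain ⟨U, hU, hU'⟩ := rich hw (fun w _ => ∃ y, T y ∧ hrel A C Pl t M J1 J2 H y w)
  refine ⟨U, hU, fun y => ?_⟩
  obtain ⟨h1, h2⟩ := h
  constructor
  · rintro ⟨hy, w, hw, hyw, c, hc, hr⟩
    rw [hU' w hw c hc] at hr
    obtain ⟨y', hy', hyw'⟩ := hr
    rwa [h2 y hy y' (hT _ hy') w hw hyw hyw']
  · intro hy
    obtain ⟨w, hw, hyw⟩ := h1 y (hT y hy)
    obtain ⟨c, hc, -⟩ := hM.1 w hw
    exact ⟨hT y hy, w, hw, hyw, c, hc, (hU' w hw c hc).2 ⟨y, hy, hyw⟩⟩

/-- If the small part is small enough then good tuples exist for every numbering. -/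
theorem exists_good (f : Numbering V) (hw : WF A C) (hs : Small C) {M : V} (hM : C 3 M)
    (hMi : InjRel A C M) :
    ∃ t, ∃ J1, C 3 J1 ∧ ∃ J2, C 3 J2 ∧ ∃ H, C 3 H ∧ good A C (plusOf f) t M J1 J2 H := by
  classical
  obtain ⟨t, ht, hshift⟩ := exists_good_shift f (C 4) (C 3) (count hw hs ⟨M, hM, hMi⟩)
  choose! z hz3 hzs using hshift
  obtain ⟨g, hg1, hg2⟩ := hs
  -- distinguishing set
  have hzinj : ∀ y, C 4 y → ∀ y', C 4 y' → z y = z y' → y = y' := by
    intro y hy y' hy' e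
    exact shift_inj_left f (hzs y hy) (by rw [e]; exact hzs y' hy')
  obtain ⟨D, hDE, hDc, hD⟩ := exists_distinguishing (ι := V) (X := V × V)
    (fun y d => rel A C (z y) d.1 d.2) {d | C 0 d.1 ∧ C 1 d.2} (Finset.univ.filter (C 4))
    (by
      intro y hy y' hy' h
      simp only [Finset.mem_filter, Finset.mem_univ, true_and] at hy hy'
      refine hzinj y hy y' hy' ?_
      refine hw.2.2.2.1 _ (hz3 y hy) _ (hz3 y' hy') ?_
      intro b hb c hc
      exact h (b, c) ⟨hb, hc⟩)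
  -- an injection of `D` into the first base set
  have hcard : D.card ≤ (Finset.univ.filter (C 0)).card := by
    refine hDc.trans ?_
    refine Finset.card_le_card_of_injOn g ?_ ?_
    · intro y hy
      simp only [Finset.coe_filter, Finset.mem_univ, true_and, Set.mem_ofPred_eq] at hy ⊢
      exact hg1 y hy
    · intro y hy y' hy' e
      simp only [Finset.coe_filter, Finset.mem_univ, true_and, Set.mem_ofPred_eq] at hy hy'
      exact hg2 y hy y' hy' e
  obtain ⟨j, hj1, hj2⟩ : ∃ j : V × V → V, (∀ d ∈ D, C 0 (j d)) ∧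
      ∀ d ∈ D, ∀ d' ∈ D, j d = j d' → d = d' := by
    by_cases hDe : D.Nonempty
    · obtain ⟨d₀, hd₀⟩ := hDe
      obtain ⟨e⟩ : Nonempty (D ↪ {v // v ∈ Finset.univ.filter (C 0)}) :=
        Function.Embedding.nonempty_of_card_le (by
          rw [Fintype.card_coe, Fintype.card_coe]; exact hcard)
      refine ⟨fun d => if hd : d ∈ D then (e ⟨d, hd⟩).1 else t, ?_, ?_⟩
      · intro d hd
        simp only [hd, dif_pos]
        exact (Finset.mem_filter.1 (e ⟨d, hd⟩).2).2
      · intro d hd d' hd' h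
        simp only [hd, hd', dif_pos] at h
        have := e.injective (Subtype.ext h)
        exact congrArg Subtype.val this
    · rw [Finset.not_nonempty_iff_eq_empty] at hDe
      subst hDe
      exact ⟨fun _ => t, by simp, by simp⟩
  obtain ⟨J1, hJ1, hJ1'⟩ := rich hw (fun b e => ∃ d ∈ D, d.1 = b ∧ rel A C M (j d) e)
  obtain ⟨J2, hJ2, hJ2'⟩ := rich hw (fun e' c => ∃ d ∈ D, j d = e' ∧ d.2 = c)
  have hrow : ∀ z e, C 1 e → (row A C M J1 J2 z e ↔
      ∃ d ∈ D, rel A C M (j d) e ∧ rel A C z d.1 d.2) := by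
    intro z e he
    constructor
    · rintro ⟨e', he', hMe, b, hb, c, hc, h1, h2, h3⟩
      rw [hJ1' b hb e he] at h1
      rw [hJ2' e' he' c hc] at h2
      obtain ⟨d, hd, rfl, hde⟩ := h1
      obtain ⟨d', hd', rfl, rfl⟩ := h2
      have e1 := hMi.2 _ (hj1 d hd) _ (hj1 d' hd') e he hde hMe
      have e2 := hj2 d hd d' hd' e1
      subst e2
      exact ⟨d, hd, hde, h3⟩
    · rintro ⟨d, hd, hde, h3⟩
      have hd0 : C 0 d.1 ∧ C 1 d.2 := hDE d hd
      refine ⟨j d, hj1 d hd, hde, d.1, hd0.1, d.2, hd0.2, ?_, ?_, h3⟩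
      · rw [hJ1' _ hd0.1 e he]
        exact ⟨d, hd, rfl, hde⟩
      · rw [hJ2' _ (hj1 d hd) _ hd0.2]
        exact ⟨d, hd, rfl, rfl⟩
  obtain ⟨H, hH, hH'⟩ := rich hw (fun w e => ∃ y, C 4 y ∧ g y = w ∧ row A C M J1 J2 (z y) e)
  refine ⟨t, J1, hJ1, J2, hJ2, H, hH, ?_, ?_⟩
  · intro y hy
    refine ⟨g y, hg1 y hy, z y, hz3 y hy, hzs y hy, fun e he => ?_⟩
    rw [hH' _ (hg1 y hy) e he]
    constructor
    · rintro ⟨y', hy', e1, h⟩
      rwa [hg2 y hy y' hy' e1.symm]
    · intro h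
      exact ⟨y, hy, rfl, h⟩
  · rintro y hy y' hy' w hw' ⟨z1, hz1, hz1s, h1⟩ ⟨z2, hz2, hz2s, h2⟩
    have e1 : z1 = z y := shift_unique f hz1s (hzs y hy)
    have e2 : z2 = z y' := shift_unique f hz2s (hzs y' hy')
    subst e1 e2
    refine hD y (by simpa using hy) y' (by simpa using hy') ?_
    intro d hd
    obtain ⟨e, he, hde⟩ := hMi.1 (j d) (hj1 d hd)
    have hh := (h1 e he).symm.trans (h2 e he)
    rw [hrow _ e he, hrow _ e he] at hh
    have hpt : ∀ z, (∃ d ∈ D, rel A C M (j d) e ∧ rel A C z d.1 d.2) ↔ rel A C z d.1 d.2 := by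
      intro z
      constructor
      · rintro ⟨d', hd', h3, h4⟩
        have := hj2 d hd d' hd' (hMi.2 _ (hj1 d hd) _ (hj1 d' hd') e he hde h3)
        subst this
        exact h4
      · intro h
        exact ⟨d, hd, hde, h⟩
    rwa [hpt, hpt] at hh

theorem key (f : Numbering V) (x : V) :
    SemPhi A C (plusOf f) x ↔
      WF A C ∧ C 4 x ∧ (∃ M, C 3 M ∧ InjRel A C M) ∧ Small C ∧ Reach A C x := by
  constructor
  · rintro ⟨hw, hx, M, hM, hMi, t, J1, hJ1, J2, hJ2, H, hH, hgood, hU⟩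
    refine ⟨hw, hx, ⟨M, hM, hMi⟩, small_of_good hgood, ?_⟩
    intro T hTx hT hclosed
    obtain ⟨U, hU3, hU'⟩ := exists_TU hw hMi hgood T hT
    obtain ⟨y, hy, hy5⟩ := hU U hU3 ((hU' x).2 hTx) (fun y hy z hz hyz =>
      (hU' z).2 (hclosed y ((hU' y).1 hy) z hz hyz))
    exact ⟨y, (hU' y).1 hy, hy5⟩
  · rintro ⟨hw, hx, ⟨M, hM, hMi⟩, hs, hR⟩
    obtain ⟨t, J1, hJ1, J2, hJ2, H, hH, hgood⟩ := exists_good f hw hs hM hMi
    refine ⟨hw, hx, M, hM, hMi, t, J1, hJ1, J2, hJ2, H, hH, hgood, ?_⟩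
    intro U _ hUx hclosed
    exact hR (fun y => TU A C (plusOf f) t M J1 J2 H U y) hUx (fun y hy => hy.1) hclosed

end

end Pool.Agent.AddInv
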