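import Pool.Agent.AddInv.Form

/-!
# The witnessing formula and its meaning

Colours: `0`, `1` two base sets, `2` pair vertices, `3` relation vertices, `4` the small part,
`5` a marked subset.
-/

namespace Pool.Agent.AddInv

section Sem

variable {V : Type} (A : V → V → Prop) (C : Fin 6 → V → Prop) (Pl : V → V → V → Prop)

/-- `(b,c)` belongs to the relation coded by `q`. -/
def rel (q b c : V) : Prop := ∃ p, C 2 p ∧ A p b ∧ A p c ∧ A p q

def wf1 : Prop := ∀ v, C 0 v ∨ C 1 v ∨ C 2 v ∨ C 3 v ∨ C 4 v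
def wf2 : Prop := ∀ p, C 2 p → ∃ b, C 0 b ∧ ∃ c, C 1 c ∧ A p b ∧ A p c
def wf3 : Prop := ∀ p, C 2 p → ∀ p', C 2 p' → ∀ b, C 0 b → ∀ c, C 1 c →
  A p b → A p c → A p' b → A p' c → p = p'
def wf4 : Prop := ∀ q, C 3 q → ∀ q', C 3 q' →
  (∀ b, C 0 b → ∀ c, C 1 c → (rel A C q b c ↔ rel A C q' b c)) → q = q'
def wf5 : Prop := ∃ q, C 3 q ∧ ∀ b, C 0 b → ∀ c, C 1 c → ¬ rel A C q b c
def wf6 : Prop := ∀ q, C 3 q → ∀ b, C 0 b → ∀ c, C 1 c → ∃ q', C 3 q' ∧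
  ∀ b', C 0 b' → ∀ c', C 1 c' → (rel A C q' b' c' ↔ (rel A C q b' c' ∨ (b' = b ∧ c' = c)))
def wf7 : Prop := ∃ x, C 0 x ∧ ∃ y, C 0 y ∧ ∃ z, C 0 z ∧ ¬ x = y ∧ ¬ y = z ∧ ¬ x = z

/-- The small part does not matter; the rest is a correct structure. -/
def WF : Prop :=
  wf1 C ∧ wf2 A C ∧ wf3 A C ∧ wf4 A C ∧ wf5 A C ∧ wf6 A C ∧ wf7 C

/-- `M` codes an injective total relation. -/
def InjRel (M : V) : Prop := (∀ b, C 0 b → ∃ c, C 1 c ∧ rel A C M b c) ∧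
  (∀ b, C 0 b → ∀ b', C 0 b' → ∀ c, C 1 c → rel A C M b c → rel A C M b' c → b = b')

def isMax (m : V) : Prop := ∀ v, ∀ w, ¬ Pl m v w

def shift (t y z : V) : Prop := Pl y t z ∨ ∃ u, ∃ m, isMax Pl m ∧ Pl t u m ∧ Pl z u y

def row (M J1 J2 z e : V) : Prop := ∃ e', C 0 e' ∧ rel A C M e' e ∧ ∃ b, C 0 b ∧ ∃ c, C 1 c ∧
  rel A C J1 b e ∧ rel A C J2 e' c ∧ rel A C z b c

def hrel (t M J1 J2 H y w : V) : Prop := ∃ z, C 3 z ∧ shift Pl t y z ∧
  ∀ e, C 1 e → (rel A C H w e ↔ row A C M J1 J2 z e)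

def good (t M J1 J2 H : V) : Prop :=
  (∀ y, C 4 y → ∃ w, C 0 w ∧ hrel A C Pl t M J1 J2 H y w) ∧
  (∀ y, C 4 y → ∀ y', C 4 y' → ∀ w, C 0 w →
    hrel A C Pl t M J1 J2 H y w → hrel A C Pl t M J1 J2 H y' w → y = y')

def TU (t M J1 J2 H U y : V) : Prop :=
  C 4 y ∧ ∃ w, C 0 w ∧ hrel A C Pl t M J1 J2 H y w ∧ ∃ c, C 1 c ∧ rel A C U w c

def SemPhi (x : V) : Prop :=
  WF A C ∧ C 4 x ∧ ∃ M, C 3 M ∧ InjRel A C M ∧ ∃ t, ∃ J1, C 3 J1 ∧ ∃ J2, C 3 J2 ∧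
    ∃ H, C 3 H ∧ good A C Pl t M J1 J2 H ∧
    ∀ U, C 3 U → TU A C Pl t M J1 J2 H U x →
      (∀ y, TU A C Pl t M J1 J2 H U y → ∀ z, C 4 z → A y z → TU A C Pl t M J1 J2 H U z) →
      ∃ y, TU A C Pl t M J1 J2 H U y ∧ C 5 y

end Sem

namespace Fm

/-- bounded quantifiers -/
def exC (c : Fin 6) (i : ℕ) (φ : Fm) : Fm := ex i (and (col c i) φ)
def allC (c : Fin 6) (i : ℕ) (φ : Fm) : Fm := all i (imp (col c i) φ)

/- variable `90` is used as the bound variable of `fRel` -/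
def fRel (q b c : ℕ) : Fm := ex 90 (and (col 2 90) (and (adj 90 b) (and (adj 90 c) (adj 90 q))))

def fwf1 : Fm := all 60 (or (col 0 60) (or (col 1 60) (or (col 2 60) (or (col 3 60) (col 4 60)))))
def fwf2 : Fm := allC 2 60 (exC 0 61 (exC 1 62 (and (adj 60 61) (adj 60 62))))
def fwf3 : Fm := allC 2 60 (allC 2 61 (allC 0 62 (allC 1 63
  (imp (adj 60 62) (imp (adj 60 63) (imp (adj 61 62) (imp (adj 61 63) (eq 60 61))))))))
def fwf4 : Fm := allC 3 60 (allC 3 61 (imp (allC 0 62 (allC 1 63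
  (iff (fRel 60 62 63) (fRel 61 62 63)))) (eq 60 61)))
def fwf5 : Fm := exC 3 60 (allC 0 61 (allC 1 62 (not (fRel 60 61 62))))
def fwf6 : Fm := allC 3 60 (allC 0 61 (allC 1 62 (exC 3 63 (allC 0 64 (allC 1 65
  (iff (fRel 63 64 65) (or (fRel 60 64 65) (and (eq 64 61) (eq 65 62)))))))))
def fwf7 : Fm := exC 0 60 (exC 0 61 (exC 0 62
  (and (not (eq 60 61)) (and (not (eq 61 62)) (not (eq 60 62))))))
def fWF : Fm := and fwf1 (and fwf2 (and fwf3 (and fwf4 (and fwf5 (and fwf6 fwf7)))))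

def fInj (M : ℕ) : Fm := and (allC 0 60 (exC 1 61 (fRel M 60 61)))
  (allC 0 60 (allC 0 61 (allC 1 62 (imp (fRel M 60 62) (imp (fRel M 61 62) (eq 60 61))))))

def fMax (m : ℕ) : Fm := all 80 (all 81 (not (plus m 80 81)))
def fShift (t y z : ℕ) : Fm := or (plus y t z)
  (ex 70 (ex 71 (and (fMax 71) (and (plus t 70 71) (plus z 70 y)))))
/- variables: `t = 1`, `M = 2`, `J1 = 3`, `J2 = 4`, `H = 5` -/
def fRow (z e : ℕ) : Fm := exC 0 40 (and (fRel 2 40 e) (exC 0 41 (exC 1 42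
  (and (fRel 3 41 e) (and (fRel 4 40 42) (fRel z 41 42))))))
def fH (y w : ℕ) : Fm := exC 3 30 (and (fShift 1 y 30)
  (allC 1 31 (iff (fRel 5 w 31) (fRow 30 31))))
def fGood : Fm := and (allC 4 20 (exC 0 21 (fH 20 21)))
  (allC 4 20 (allC 4 21 (allC 0 22 (imp (fH 20 22) (imp (fH 21 22) (eq 20 21))))))
def fTU (U y : ℕ) : Fm := and (col 4 y) (exC 0 20 (and (fH y 20) (exC 1 21 (fRel U 20 21))))

def fPhi : Fm := and fWF (and (col 4 0) (exC 3 2 (and (fInj 2) (ex 1 (exC 3 3 (exC 3 4 (exC 3 5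
  (and fGood (allC 3 6 (imp (fTU 6 0) (imp
    (all 7 (imp (fTU 6 7) (allC 4 8 (imp (adj 7 8) (fTU 6 8)))))
    (ex 7 (and (fTU 6 7) (col 5 7))))))))))))))

variable {V : Type} (A : V → V → Prop) (C : Fin 6 → V → Prop) (Pl : V → V → V → Prop)
  (v : ℕ → V)

theorem eval_exC (c : Fin 6) (i : ℕ) (φ : Fm) :
    eval A C Pl (exC c i φ) v ↔ ∃ x, C c x ∧ eval A C Pl φ (Function.update v i x) := by
  simp [exC, eval]

theorem eval_allC (c : Fin 6) (i : ℕ) (φ : Fm) :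
    eval A C Pl (allC c i φ) v ↔ ∀ x, C c x → eval A C Pl φ (Function.update v i x) := by
  simp [allC, eval_all, eval_imp, eval]

theorem eval_fRel (q b c : ℕ) (hq : q ≠ 90) (hb : b ≠ 90) (hc : c ≠ 90) :
    eval A C Pl (fRel q b c) v ↔ rel A C (v q) (v b) (v c) := by
  simp [fRel, eval, rel, hq, hb, hc]

theorem eval_fWF : eval A C Pl fWF v ↔ WF A C := by
  simp [fWF, fwf1, fwf2, fwf3, fwf4, fwf5, fwf6, fwf7, WF, wf1, wf2, wf3, wf4, wf5, wf6, wf7,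
    eval, eval_exC, eval_allC, eval_fRel, eval_all, eval_imp, eval_iff, eval_or]

theorem eval_fInj (M : ℕ) (h : M < 60) :
    eval A C Pl (fInj M) v ↔ InjRel A C (v M) := by
  have h1 : M ≠ 60 := by omega
  have h2 : M ≠ 61 := by omega
  have h3 : M ≠ 62 := by omega
  have h4 : M ≠ 90 := by omega
  simp [fInj, InjRel, eval, eval_exC, eval_allC, eval_fRel, eval_imp, h1, h2, h3, h4]

theorem eval_fShift (t y z : ℕ) (ht : t < 70) (hy : y < 70) (hz : z < 70) :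
    eval A C Pl (fShift t y z) v ↔ shift Pl (v t) (v y) (v z) := by
  have h1 : t ≠ 70 := by omega
  have h2 : t ≠ 71 := by omega
  have h3 : y ≠ 70 := by omega
  have h4 : y ≠ 71 := by omega
  have h5 : z ≠ 70 := by omega
  have h6 : z ≠ 71 := by omega
  simp [fShift, fMax, isMax, shift, eval, eval_all, eval_or, h1, h2, h3, h4, h5, h6]

theorem eval_fRow (z e : ℕ) (hz : z < 40) (he : e < 40) :
    eval A C Pl (fRow z e) v ↔ row A C (v 2) (v 3) (v 4) (v z) (v e) := by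
  have h1 : z ≠ 40 := by omega
  have h2 : z ≠ 41 := by omega
  have h3 : z ≠ 42 := by omega
  have h4 : z ≠ 90 := by omega
  have h5 : e ≠ 40 := by omega
  have h6 : e ≠ 41 := by omega
  have h7 : e ≠ 42 := by omega
  have h8 : e ≠ 90 := by omega
  simp [fRow, row, eval, eval_exC, eval_fRel, h1, h2, h3, h4, h5, h6, h7, h8]

theorem eval_fH (y w : ℕ) (hy : y < 30) (hw : w < 30) :
    eval A C Pl (fH y w) v ↔
      hrel A C Pl (v 1) (v 2) (v 3) (v 4) (v 5) (v y) (v w) := by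
  have h1 : y ≠ 30 := by omega
  have h2 : w ≠ 30 := by omega
  have h3 : w ≠ 31 := by omega
  have h4 : w ≠ 90 := by omega
  have h5 : y < 70 := by omega
  simp [fH, hrel, eval, eval_exC, eval_allC, eval_iff, eval_fRel, eval_fShift, eval_fRow,
    h1, h2, h3, h4, h5]

theorem eval_fGood : eval A C Pl fGood v ↔ good A C Pl (v 1) (v 2) (v 3) (v 4) (v 5) := by
  simp [fGood, good, eval, eval_exC, eval_allC, eval_imp, eval_fH]

theorem eval_fTU (U y : ℕ) (hU : U < 20) (hy : y < 20) :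
    eval A C Pl (fTU U y) v ↔
      TU A C Pl (v 1) (v 2) (v 3) (v 4) (v 5) (v U) (v y) := by
  have h1 : U ≠ 20 := by omega
  have h2 : U ≠ 21 := by omega
  have h3 : U ≠ 90 := by omega
  have h4 : y ≠ 20 := by omega
  have h5 : y < 30 := by omega
  simp [fTU, TU, eval, eval_exC, eval_fRel, eval_fH, h1, h2, h3, h4, h5]

theorem eval_fPhi : eval A C Pl fPhi v ↔ SemPhi A C Pl (v 0) := by
  simp [fPhi, SemPhi, eval, eval_exC, eval_allC, eval_all, eval_imp, eval_fWF, eval_fInj,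
    eval_fGood, eval_fTU]

end Fm
end Pool.Agent.AddInv
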